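import Mathlib
import Pool.Agent.L7h52.Sidon.Main

/-!
# MP_080bf7_an, Q1: subgaussian sets of characters of `(ℤ/4ℤ)^ℕ`

For every `n ≥ 1`, in particular for `n = 4`, a set `Λ` of nonzero characters of the compact group
`(ℤ/nℤ)^ℕ` is subgaussian if and only if it is a finite union of quasi-independent sets.

Proof of the new direction. Let `Λ` be subgaussian with constant `C`. Integrating
`exp (|∑_{a ∈ A} γ_a|² / c²)` over the annihilator of a finite set `E` shows: if a finite subset `A`
of `Λ` lies in the subgroup generated by `E`, then `|A| / C² ≤ 1 + |E| log n`.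
Let `k` be large. Let `M` be the dual group and `M = N_0 ⊇ N_1 ⊇ … ⊇ N_r = 0` with
`N_{j+1} = p_{j+1} N_j`, `n = p_1 ⋯ p_r` (for `n = 4`: `M ⊇ 2M ⊇ 0`). Starting from a finite
`A = B_0 ⊆ Λ` choose successively `B_{j+1} ⊆ B_j` maximising `|B| - k rank (q_j B)`, where `q_j` is the
map of the subgroup `⟨F_j⟩ + N_j`, which contains `B_j`, onto the `ZMod p_{j+1}`-vector space
`(⟨F_j⟩ + N_j) / (⟨F_j⟩ + N_{j+1})`; the set `F_{j+1}` is `F_j` together with a subset of `B_{j+1}`
which is a basis of the span of `q_j B_{j+1}`. By Edmonds' partition theorem `B_j \ B_{j+1}` is a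
union of `k` classes that are linearly independent over `B_{j+1}` under `q_j`. A relation with
coefficients in `{-1,0,1}` supported on `B_{j+1}` and one class passes to `q_j`, so its coefficients
on the class are divisible by `p_{j+1}`, hence zero. Therefore, if `B_r` is a union of `k`
quasi-independent sets, so is `A`, and we are done by induction unless `B_r = A`. But in this case
`A` lies in the subgroup generated by `F_r`, and `|F_r| ≤ r |A| / k`, so that `A` has at most `k`
elements. Finally a compactness argument gives the statement for infinite `Λ`.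

The converse (Riesz products) is classical.
-/

set_option autoImplicit false

namespace Pool.Agent.Results.MP_080bf7_an.SubgaussianQuasiIndependent

open Pool.Agent.L7h52.Sidon

/-- A set of nonzero characters of `(ℤ/nℤ)^ℕ` is subgaussian if and only if it is a finite union of
quasi-independent sets. -/
theorem result (n : ℕ) [NeZero n] (Λ : Set (ℕ →₀ ZMod n)) (h0 : (0 : ℕ →₀ ZMod n) ∉ Λ) :
    Subgaussian Λ ↔ ∃ (N : ℕ) (Q : Fin N → Set (ℕ →₀ ZMod n)),
      (∀ i, QuasiIndependent (Q i)) ∧ Λ = ⋃ i, Q i :=
  main n Λ h0

end Pool.Agent.Results.MP_080bf7_an.SubgaussianQuasiIndependent
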